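import Pool.Agent.Q131.EcId

set_option autoImplicit false

/-! # Contraction distance versus identification distance to minor-closed classes

The class `H₁` of the graphs with at most one vertex of degree at least three is minor-closed. Take
two stars with many leaves and join their centres by a long path. If the two centres are identified
then only the new vertex has degree at least three, but many edge contractions are needed. -/

namespace Pool.Agent.Results.MP_4c2ece_co.ContractionUnbounded

open Pool.Agent.Q131.EcId

/-- There are a minor-closed class `H` and connected graphs with identification distance at most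
two and with an arbitrarily large, finite contraction distance. So the contraction distance is not
bounded by a function of the identification distance for all minor-closed classes. -/
theorem result :
    (∃ H : GraphClass, MinorClosed H ∧ ∀ n : ℕ,
      ∃ (V : Type) (_ : Finite V) (G : SimpleGraph V), G.Connected ∧ IdentifiesIn H 2 V G ∧
        (∃ k, ContractsIn H k V G) ∧ ∀ k, ContractsIn H k V G → n ≤ k) ∧
    ¬ ∀ H : GraphClass, MinorClosed H → ∃ f : ℕ → ℕ, ∀ (V : Type) [Finite V] (G : SimpleGraph V),
      (∃ k, ContractsIn H k V G) → ec H V G ≤ f (idn H V G) := by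
  have main : ∀ n : ℕ, ∃ (V : Type) (_ : Finite V) (G : SimpleGraph V), G.Connected ∧
      IdentifiesIn H₁ 2 V G ∧ (∃ k, ContractsIn H₁ k V G) ∧
        ∀ k, ContractsIn H₁ k V G → n ≤ k := by
    intro n
    refine ⟨Vx n, inferInstance, broom n, broom_connected n, identifiesIn_broom n,
      exists_contractsIn _ _ _ le_rfl, ?_⟩
    intro k hk
    by_contra hlt
    exact not_contractsIn_of_far k _ _ (far_mono (by omega) (far_broom n)) hk
  refine ⟨⟨H₁, minorClosed_H₁, main⟩, ?_⟩
  intro hall
  obtain ⟨f, hf⟩ := hall H₁ minorClosed_H₁
  obtain ⟨V, hV, G, _, hid, hex, hlow⟩ := main (f 0 + f 1 + f 2 + 1)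
  have h1 := hf V G hex
  have h2 : f 0 + f 1 + f 2 + 1 ≤ ec H₁ V G := hlow _ (Nat.sInf_mem hex)
  have h3 : idn H₁ V G ≤ 2 := Nat.sInf_le hid
  have h4 : idn H₁ V G = 0 ∨ idn H₁ V G = 1 ∨ idn H₁ V G = 2 := by omega
  rcases h4 with h | h | h <;> rw [h] at h1 <;> omega

end Pool.Agent.Results.MP_4c2ece_co.ContractionUnbounded
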